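import Mathlib
import Pool.Agent.H.MP_8ae060_pr.Entropy

set_option autoImplicit false

open MeasureTheory ProbabilityTheory
open scoped ENNReal NNReal

namespace Pool.Agent.Results.MP_8ae060_pr.GaussianMinimum

/-- The differential entropy `-∫ f log f` of a law `ν` on `ℝ` with density `f`. -/
noncomputable def entropy (ν : Measure ℝ) : ℝ :=
  ∫ x : ℝ, Real.negMulLog (ν.rnDeriv volume x).toReal

/-- The law `ν` has a density `f` and its entropy is finite (`f log f` is integrable). -/
def HasFiniteEntropy (ν : Measure ℝ) : Prop :=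
  ν ≪ volume ∧ Integrable (fun x : ℝ => Real.negMulLog (ν.rnDeriv volume x).toReal) volume

/-- The submodularity gap `G(X, Y, Z) = h(X + Z) + h(Y + Z) - h(X + Y + Z) - h(Z)`. -/
noncomputable def gap {Ω : Type*} [MeasurableSpace Ω] (P : Measure Ω) (X Y Z : Ω → ℝ) : ℝ :=
  entropy (P.map (X + Z)) + entropy (P.map (Y + Z)) - entropy (P.map (X + Y + Z))
    - entropy (P.map Z)

/-- `X, Y, Z` are independent random variables with the same law `μ`. -/
def IsIIDTriple {Ω : Type*} [MeasurableSpace Ω] (P : Measure Ω) (X Y Z : Ω → ℝ)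
    (μ : Measure ℝ) : Prop :=
  Measurable X ∧ Measurable Y ∧ Measurable Z ∧ iIndepFun ![X, Y, Z] P ∧
    P.map X = μ ∧ P.map Y = μ ∧ P.map Z = μ

theorem laws {Ω : Type*} [MeasurableSpace Ω] {P : Measure Ω} [IsProbabilityMeasure P]
    {X Y Z : Ω → ℝ} {μ : Measure ℝ} (h : IsIIDTriple P X Y Z μ) :
    P.map (X + Z) = Measure.conv μ μ ∧ P.map (Y + Z) = Measure.conv μ μ ∧
      P.map (X + Y + Z) = Measure.conv (Measure.conv μ μ) μ := by
  obtain ⟨hX, hY, hZ, hi, eX, eY, eZ⟩ := h
  have hm : ∀ i, Measurable ((![X, Y, Z] : Fin 3 → Ω → ℝ) i) := by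
    intro i
    fin_cases i
    · exact hX
    · exact hY
    · exact hZ
  have hXZ : IndepFun X Z P := hi.indepFun (i := 0) (j := 2) (by decide)
  have hYZ : IndepFun Y Z P := hi.indepFun (i := 1) (j := 2) (by decide)
  have hXY : IndepFun X Y P := hi.indepFun (i := 0) (j := 1) (by decide)
  have hXYZ : IndepFun (X + Y) Z P := hi.indepFun_add_left hm 0 1 2 (by decide) (by decide)
  refine ⟨?_, ?_, ?_⟩
  · rw [hXZ.map_add_eq_map_conv_map hX hZ, eX, eZ]
  · rw [hYZ.map_add_eq_map_conv_map hY hZ, eY, eZ]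
  · rw [hXYZ.map_add_eq_map_conv_map (hX.add hY) hZ, hXY.map_add_eq_map_conv_map hX hY, eX, eY, eZ]

theorem ent_gaussian (m : ℝ) (v : ℝ≥0) (hv : v ≠ 0) : HasFiniteEntropy (gaussianReal m v) ∧
    entropy (gaussianReal m v) = (Real.log (2 * Real.pi * v) + 1) / 2 := by
  have hvpos : (0 : ℝ) < v := by positivity
  have hpdf : ∀ x, Real.negMulLog (gaussianPDFReal m v x) =
      gaussianPDFReal m v x * ((Real.log (2 * Real.pi * v)) / 2 + (x - m) ^ 2 / (2 * v)) := by
    intro x
    have hpos : 0 < Real.sqrt (2 * Real.pi * v) := Real.sqrt_pos.2 (by positivity)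
    have hl : Real.log (gaussianPDFReal m v x) =
        - (Real.log (2 * Real.pi * v) / 2) - (x - m) ^ 2 / (2 * v) := by
      unfold gaussianPDFReal
      rw [Real.log_mul (by positivity) (Real.exp_ne_zero _), Real.log_exp, Real.log_inv,
        Real.log_sqrt (by positivity)]
      ring
    rw [Real.negMulLog, hl]
    ring
  have hae : (fun x : ℝ => Real.negMulLog ((gaussianReal m v).rnDeriv volume x).toReal) =ᵐ[volume]
      fun x => gaussianPDFReal m v x •
        ((Real.log (2 * Real.pi * v)) / 2 + (x - m) ^ 2 / (2 * v)) := by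
    filter_upwards [rnDeriv_gaussianReal m v] with x hx
    rw [hx, toReal_gaussianPDF, hpdf, smul_eq_mul]
  have hsq : Integrable (fun x : ℝ => (x - m) ^ 2) (gaussianReal m v) := by
    have h1 : MemLp (fun x : ℝ => x - m) 2 (gaussianReal m v) :=
      (memLp_id_gaussianReal' 2 (by simp)).sub (memLp_const m)
    exact h1.integrable_sq
  have hg : Integrable (fun x : ℝ => (Real.log (2 * Real.pi * v)) / 2 + (x - m) ^ 2 / (2 * v))
      (gaussianReal m v) := (integrable_const _).add (hsq.div_const _)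
  have hint : Integrable (fun x => gaussianPDFReal m v x •
        ((Real.log (2 * Real.pi * v)) / 2 + (x - m) ^ 2 / (2 * v))) volume := by
    have h2 := hg
    rw [gaussianReal_of_var_ne_zero m hv] at h2
    rw [integrable_withDensity_iff_integrable_smul' (measurable_gaussianPDF m v)
      (Filter.Eventually.of_forall fun x => gaussianPDF_lt_top)] at h2
    simpa only [toReal_gaussianPDF] using h2
  refine ⟨⟨gaussianReal_absolutelyContinuous m hv, hint.congr hae.symm⟩, ?_⟩
  have hvar : ∫ x, (x - m) ^ 2 ∂(gaussianReal m v) = v := by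
    have h3 := variance_fun_id_gaussianReal (μ := m) (v := v)
    rw [variance_eq_integral (by fun_prop), integral_id_gaussianReal] at h3
    exact h3
  unfold entropy
  rw [integral_congr_ae hae, ← integral_gaussianReal_eq_integral_smul hv,
    integral_add (integrable_const _) (hsq.div_const _), integral_div, integral_div, hvar,
    integral_const]
  have h1 : (gaussianReal m v).real Set.univ = 1 := by simp
  rw [h1, one_smul]
  field_simp

/-- The gap of i.i.d. Gaussians with positive variance is `½ log (4/3)`. -/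
theorem gap_gaussian {Ω : Type*} [MeasurableSpace Ω] {P : Measure Ω} [IsProbabilityMeasure P]
    {X Y Z : Ω → ℝ} {m : ℝ} {v : ℝ≥0} (hv : v ≠ 0) (h : IsIIDTriple P X Y Z (gaussianReal m v)) :
    gap P X Y Z = Real.log (4 / 3) / 2 := by
  obtain ⟨e1, e2, e3⟩ := laws h
  have hvpos : (0 : ℝ) < v := by positivity
  unfold gap
  rw [e1, e2, e3, h.2.2.2.2.2.2, gaussianReal_conv_gaussianReal, gaussianReal_conv_gaussianReal,
    (ent_gaussian _ _ (by positivity)).2, (ent_gaussian _ _ (by positivity)).2,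
    (ent_gaussian _ _ hv).2]
  push_cast
  have h2 : Real.log (2 * Real.pi * (v + v)) = Real.log (2 * Real.pi * v) + Real.log 2 := by
    rw [← Real.log_mul (by positivity) (by norm_num)]
    congr 1
    ring
  have h3 : Real.log (2 * Real.pi * (v + v + v)) = Real.log (2 * Real.pi * v) + Real.log 3 := by
    rw [← Real.log_mul (by positivity) (by norm_num)]
    congr 1
    ring
  have h4 : Real.log (4 / 3) = 2 * Real.log 2 - Real.log 3 := by
    rw [Real.log_div (by norm_num) (by norm_num), show (4 : ℝ) = 2 ^ 2 by norm_num, Real.log_pow]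
    norm_num
  rw [h2, h3, h4]
  ring

/-- **Gaussians minimise the submodularity gap of entropy.** -/
theorem result {Ω : Type*} [MeasurableSpace Ω] (P : Measure Ω) [IsProbabilityMeasure P]
    (X Y Z : Ω → ℝ) (μ : Measure ℝ) (h : IsIIDTriple P X Y Z μ)
    (h1 : HasFiniteEntropy μ) (h2 : HasFiniteEntropy (P.map (X + Z)))
    (h3 : HasFiniteEntropy (P.map (X + Y + Z)))
    {Ω' : Type*} [MeasurableSpace Ω'] (P' : Measure Ω') [IsProbabilityMeasure P']
    (X' Y' Z' : Ω' → ℝ) (m : ℝ) (v : ℝ≥0) (hv : v ≠ 0)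
    (h' : IsIIDTriple P' X' Y' Z' (gaussianReal m v)) :
    gap P' X' Y' Z' = Real.log (4 / 3) / 2 ∧ gap P' X' Y' Z' ≤ gap P X Y Z := by
  refine ⟨gap_gaussian hv h', ?_⟩
  rw [gap_gaussian hv h']
  have hμ : IsProbabilityMeasure μ := by
    rw [← h.2.2.2.2.1]
    exact Measure.isProbabilityMeasure_map h.1.aemeasurable
  obtain ⟨e1, e2, e3⟩ := laws h
  rw [e1] at h2
  rw [e3] at h3
  have := Pool.Agent.H.MP_8ae060_pr.main μ h1.1 h1.2 h2.2 h3.2
  unfold gap entropy
  rw [e1, e2, e3, h.2.2.2.2.2.2]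
  linarith

end Pool.Agent.Results.MP_8ae060_pr.GaussianMinimum
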